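import Pool.Agent.H81.WK.Main
import Pool.Agent.H30.DV.Assemble

/-! From simple spanning families without coloops to all families, by induction on `j`. -/

set_option linter.unusedSectionVars false

open Module Submodule H15 H30.DV H81.WK

namespace H30.WK

/-- the induction step: a subfamily of rank at most `k + j + 1`. -/
theorem sub_step {k j : ℕ}
    (ih : ∀ (ι : Type) [Fintype ι] (E : Type) [AddCommGroup E] [Module ℝ E]
      [FiniteDimensional ℝ E] (v : ι → E), Good k v → finrank ℝ E ≤ k + j + 1 →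
      3 * k + j ≤ Fintype.card ι → ¬ Bdd v k)
    {ι : Type} [Fintype ι] {E : Type} [AddCommGroup E] [Module ℝ E] [FiniteDimensional ℝ E]
    {v : ι → E} (hv : Good k v) {J : Set ι} (hJ : 3 * k + j ≤ J.ncard)
    (hr : finrank ℝ (sp v J) ≤ k + j + 1) : ¬ Bdd v k := by
  classical
  intro hb
  have hmem : ∀ i ∈ J, v i ∈ sp v J := fun i hi => mem_sp hi
  have hcard : Fintype.card J = J.ncard := by
    rw [← Nat.card_eq_fintype_card]; rfl
  exact ih J (sp v J) (H15.sub v (sp v J) J hmem) (hv.sub hmem) hr (by omega) (bdd_sub hb hmem)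

theorem good_not_bdd : ∀ j k q : ℕ,
    ((k + j + 1).choose (j + 1) + (k + j + 1).choose j) * 2 ^ q < 3 ^ q →
    3 * j * bnd j (q + j) + 2 * (q + j + 4) ^ 3 + 2 * (q + j) + 20 ≤ k →
    ∀ (ι : Type) [Fintype ι] (E : Type) [AddCommGroup E] [Module ℝ E] [FiniteDimensional ℝ E]
      (v : ι → E), Good k v → finrank ℝ E ≤ k + j + 1 → 3 * k + j ≤ Fintype.card ι →
      ¬ Bdd v k := by
  intro j
  induction j with
  | zero =>
    intro k q hq hk ι _ E _ _ _ v hv hE hcard _
    have h1 := hv.fc ⊤ (by rw [finrank_top]; omega)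
    have h2 : {i | v i ∈ (⊤ : Submodule ℝ E)} = Set.univ := by ext i; simp
    rw [h2, Set.ncard_univ, Nat.card_eq_fintype_card, finrank_top] at h1
    omega
  | succ j IH =>
    intro k q hq hk ι _ E _ _ _ v hv hE hcard hb
    classical
    have hq' : ((k + j + 1).choose (j + 1) + (k + j + 1).choose j) * 2 ^ q < 3 ^ q := by
      refine lt_of_le_of_lt (Nat.mul_le_mul_right _ ?_) hq
      have h1 : (k + j + 1).choose (j + 1) + (k + j + 1).choose j = (k + j + 2).choose (j + 1) := by
        rw [Nat.choose_succ_succ (k + j + 1) j, add_comm]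
      have h2 : k + (j + 1) + 1 = k + j + 2 := by omega
      rw [h1, h2]
      exact Nat.le_add_left _ _
    have hk' : 3 * j * bnd j (q + j) + 2 * (q + j + 4) ^ 3 + 2 * (q + j) + 20 ≤ k := by
      refine le_trans ?_ hk
      have h1 : bnd j (q + j) ≤ bnd (j + 1) (q + (j + 1)) := by
        unfold bnd
        have h2 : (j + 1) ^ 2 ≤ (j + 1 + 1) ^ 2 := Nat.pow_le_pow_left (by omega) 2
        exact Nat.mul_le_mul (Nat.mul_le_mul_left _ h2) (by omega)
      have h3 : 3 * j * bnd j (q + j) ≤ 3 * (j + 1) * bnd (j + 1) (q + (j + 1)) :=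
        Nat.mul_le_mul (by omega) h1
      have h4 : (q + j + 4) ^ 3 ≤ (q + (j + 1) + 4) ^ 3 := Nat.pow_le_pow_left (by omega) 3
      omega
    have ih := IH k q hq' hk'
    -- a subfamily of the exact size
    obtain ⟨J, -, hJ⟩ := Set.exists_subset_card_eq (s := (Set.univ : Set ι))
      (n := 3 * k + (j + 1)) (by rw [Set.ncard_univ, Nat.card_eq_fintype_card]; exact hcard)
    by_cases hr : finrank ℝ (sp v J) ≤ k + j + 1
    · exact sub_step ih hv (by omega) hr hb
    · have hmem : ∀ i ∈ J, v i ∈ sp v J := fun i hi => mem_sp hi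
      have hrE := Submodule.finrank_le (sp v J)
      have hb' := bdd_sub hb hmem
      have hg' := hv.sub hmem
      have hcJ : Fintype.card J = J.ncard := by
        rw [← Nat.card_eq_fintype_card]; rfl
      have hdim : finrank ℝ (sp v J) = k + (j + 1) + 1 := by omega
      have hs := sub_span (v := v) (hJ := hmem) rfl
      by_cases hcl : ∀ i, sp (H15.sub v (sp v J) J hmem) ({i}ᶜ) = ⊤
      · refine simple_not_bdd (q := q) (j := j + 1) (k := k)
          ⟨hdim, by omega, hcl, hg'.fc⟩ (by omega) hg'.ne_zero hg'.np hq hk hb'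
      · push Not at hcl
        obtain ⟨i, hi⟩ := hcl
        refine sub_step ih hg' (J := {i}ᶜ) ?_ ?_ hb'
        · have h5 := Set.ncard_add_ncard_compl ({i} : Set J)
          rw [Nat.card_eq_fintype_card, Set.ncard_singleton] at h5
          omega
        · have := Submodule.finrank_lt (lt_top_iff_ne_top.2 hi).ne
          omega

end H30.WK
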