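import Pool.Agent.H30.DV.Assemble

/-! From families to points. -/

set_option linter.unusedSectionVars false

open Module Submodule H15 H30.DV Pool.Agent.H7.DV

namespace H30.WK

/-- points. -/
theorem divisible_pts {k j : ℕ} (hkj : 2 ≤ k + j)
    (H : ∀ (ι : Type) [Fintype ι] (E : Type) [AddCommGroup E] [Module ℝ E] [FiniteDimensional ℝ E]
      (v : ι → E), Good k v → finrank ℝ E ≤ k + j + 1 → 3 * k + j ≤ Fintype.card ι → ¬ Bdd v k)
    (S : Finset (EuclideanSpace ℝ (Fin (k + j)))) (hS : FlatCondition k S)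
    (hcard : 3 * k + j ≤ S.card) : Divisible k S := by
  classical
  have hd' : finrank ℝ (EuclideanSpace ℝ (Fin (k + j)) × ℝ) = k + j + 1 := by simp
  let h : EuclideanSpace ℝ (Fin (k + j)) × ℝ →ₗ[ℝ] ℝ := LinearMap.snd ℝ _ ℝ
  let S0 : Finset (EuclideanSpace ℝ (Fin (k + j)) × ℝ) := S.map (hom _)
  have hone : ∀ x ∈ S0, h x = 1 := by
    intro x hx
    obtain ⟨y, -, rfl⟩ := Finset.mem_map.1 hx
    rfl
  have hmem : ∀ x ∈ S0, x ∈ (⊤ : Submodule ℝ (EuclideanSpace ℝ (Fin (k + j)) × ℝ)) :=
    fun _ _ => mem_top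
  have hDt : finrank ℝ (⊤ : Submodule ℝ (EuclideanSpace ℝ (Fin (k + j)) × ℝ)) = k + j + 1 := by
    rw [finrank_top, hd']
  have hcard0 : 3 * k + j ≤ Fintype.card S0 := by
    rw [Fintype.card_coe, Finset.card_map]; exact hcard
  have hgood : Good k (fam S0 ⊤ hmem) := by
    refine ⟨⟨h.comp (Submodule.subtype _), fun i => ?_⟩, ?_, ?_⟩
    · change 0 < h (i : EuclideanSpace ℝ (Fin (k + j)) × ℝ)
      rw [hone i i.2]; norm_num
    · exact np_of_one (h.comp (Submodule.subtype _)) (fun i => hone i i.2) (by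
        intro i j' hij
        have h3 : (Submodule.subtype ⊤) (fam S0 ⊤ hmem i) =
          (Submodule.subtype ⊤) (fam S0 ⊤ hmem j') := by rw [hij]
        exact Subtype.ext h3)
    · refine fc_of_flat' (by omega) (by omega) ?_
      intro G hG
      have h1 := flat_linear S hS (G.map (Submodule.subtype _)) (by
        rw [← (Submodule.equivMapOfInjective (Submodule.subtype _)
          Subtype.val_injective G).finrank_eq, hG])
        (S0.filter (· ∈ G.map (Submodule.subtype _))) (Finset.filter_subset _ _)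
        (fun x hx => (Finset.mem_filter.1 hx).2)
      refine le_trans ?_ h1
      rw [← Set.ncard_coe_finset, ← Set.ncard_image_of_injective _
        (Subtype.val_injective (p := (· ∈ S0)))]
      refine Set.ncard_le_ncard ?_ (Set.toFinite _)
      rintro _ ⟨i, hi, rfl⟩
      exact Finset.mem_coe.2 (Finset.mem_filter.2 ⟨i.2, ⟨_, hi, rfl⟩⟩)
  obtain ⟨T, hT, c, hc, hcT⟩ := fullDep_of_not_bdd (H _ _ _ hgood hDt.le hcard0)
  exact divisible_of_fullDep S T hT c hc hcT

end H30.WK
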